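import Pool.Agent.D0H99.OD.Stm4

set_option autoImplicit false

/-! # OD 10: from the moments to the law, finite counting -/

namespace Pool.Agent.D0H80.OD

open Finset Filter Pool.Agent.D0H99.OD

/-- the products `f_k(n)` -/
noncomputable def ff (k : ℕ) (n : ℝ) : ℝ := ∏ i ∈ range k, (n - 2 ^ i)

theorem ff_succ (k : ℕ) (n : ℝ) : ff (k + 1) n = ff k n * (n - 2 ^ k) := by
  rw [ff, Finset.prod_range_succ, ff]

/-- linear combinations of the first products -/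
def LC (K : ℕ) (F : ℝ → ℝ) : Prop := ∃ c : ℕ → ℝ, ∀ n, F n = ∑ k ∈ range K, c k * ff k n

theorem LC.mul {K : ℕ} {F : ℝ → ℝ} (h : LC K F) (a b : ℝ) : LC (K + 1) (fun n => (a - b * n) * F n) := by
  obtain ⟨c, hc⟩ := h
  let c0 : ℕ → ℝ := fun k => if k < K then (a - b * 2 ^ k) * c k else 0
  let c1 : ℕ → ℝ := fun k => match k with
    | 0 => 0
    | (j + 1) => b * c j
  refine ⟨fun k => c0 k - c1 k, fun n => ?_⟩
  have e0 : ∑ k ∈ range (K + 1), c0 k * ff k n = ∑ k ∈ range K, ((a - b * 2 ^ k) * c k) * ff k n := by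
    rw [Finset.sum_range_succ]
    have h1 : c0 K = 0 := if_neg (lt_irrefl K)
    rw [h1, zero_mul, add_zero]
    refine Finset.sum_congr rfl (fun k hk => ?_)
    have h2 : c0 k = (a - b * 2 ^ k) * c k := if_pos (Finset.mem_range.1 hk)
    rw [h2]
  have e1 : ∑ k ∈ range (K + 1), c1 k * ff k n = ∑ k ∈ range K, (b * c k) * ff (k + 1) n := by
    rw [Finset.sum_range_succ']
    have h1 : c1 0 = 0 := rfl
    rw [h1, zero_mul, add_zero]
  have e2 : ∑ k ∈ range (K + 1), (c0 k - c1 k) * ff k n =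
      ∑ k ∈ range (K + 1), c0 k * ff k n - ∑ k ∈ range (K + 1), c1 k * ff k n := by
    rw [← Finset.sum_sub_distrib]
    exact Finset.sum_congr rfl (fun k _ => by ring)
  change (a - b * n) * F n = ∑ k ∈ range (K + 1), (c0 k - c1 k) * ff k n
  rw [e2, e0, e1, ← Finset.sum_sub_distrib, hc n, Finset.mul_sum]
  refine Finset.sum_congr rfl (fun k _ => ?_)
  rw [ff_succ]
  ring

theorem LC.prod (s : Finset ℕ) (a b : ℕ → ℝ) :
    LC (s.card + 1) (fun n => ∏ e ∈ s, (a e - b e * n)) := by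
  classical
  induction s using Finset.induction_on with
  | empty =>
    refine ⟨fun _ => 1, fun n => ?_⟩
    simp [ff]
  | insert e s he ih =>
    rw [Finset.card_insert_of_notMem he]
    obtain ⟨c, hc⟩ := ih.mul (a e) (b e)
    refine ⟨c, fun n => ?_⟩
    rw [← hc n]
    exact Finset.prod_insert he

theorem pow_ne {e μ ρ : ℕ} (h : e ≠ μ) : (2 : ℝ) ^ (2 * e + ρ) - (2 : ℝ) ^ (2 * μ + ρ) ≠ 0 := by
  intro h0
  have h1 : (2 : ℝ) ^ (2 * e + ρ) = (2 : ℝ) ^ (2 * μ + ρ) := sub_eq_zero.1 h0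
  have h2 := pow_right_injective₀ (by norm_num : (0 : ℝ) < 2) (by norm_num : (2 : ℝ) ≠ 1) h1
  omega

theorem gE_LC {μ ρ E : ℕ} (hμ : μ < E) : LC E (gE μ ρ E) := by
  have h0 : ((range E).erase μ).card + 1 = E := by
    rw [Finset.card_erase_of_mem (Finset.mem_range.2 hμ), Finset.card_range]
    omega
  have h := LC.prod ((range E).erase μ)
    (fun e => (2 : ℝ) ^ (2 * e + ρ) / ((2 : ℝ) ^ (2 * e + ρ) - (2 : ℝ) ^ (2 * μ + ρ)))
    (fun e => 1 / ((2 : ℝ) ^ (2 * e + ρ) - (2 : ℝ) ^ (2 * μ + ρ)))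
  rw [h0] at h
  obtain ⟨c, hc⟩ := h
  refine ⟨c, fun n => ?_⟩
  rw [← hc n, gE]
  exact Finset.prod_congr rfl (fun e _ => by ring)

theorem gE_self {μ ρ E : ℕ} : gE μ ρ E ((2 : ℝ) ^ (2 * μ + ρ)) = 1 := by
  rw [gE]
  refine Finset.prod_eq_one (fun e he => ?_)
  exact div_self (pow_ne (Finset.mem_erase.1 he).1)

theorem gE_zero {μ ρ E e : ℕ} (h : e < E) (hne : e ≠ μ) : gE μ ρ E ((2 : ℝ) ^ (2 * e + ρ)) = 0 := by
  rw [gE]
  refine Finset.prod_eq_zero (Finset.mem_erase.2 ⟨hne, Finset.mem_range.2 h⟩) ?_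
  rw [sub_self, zero_div]

theorem pow_lt {e e' ρ : ℕ} (h : e < e') : (2 : ℝ) ^ (2 * e + ρ) < (2 : ℝ) ^ (2 * e' + ρ) :=
  pow_lt_pow_right₀ (by norm_num) (by omega)

theorem gE_nonpos {μ ρ E e : ℕ} (hμ : μ < E) (hpar : Odd (E - (μ + 1))) (h : E ≤ e) :
    gE μ ρ E ((2 : ℝ) ^ (2 * e + ρ)) ≤ 0 := by
  classical
  have hsplit : (range E).erase μ = range μ ∪ Ico (μ + 1) E := by
    ext x
    rw [Finset.mem_erase, Finset.mem_range, Finset.mem_union, Finset.mem_range, Finset.mem_Ico]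
    omega
  have hdisj : Disjoint (range μ) (Ico (μ + 1) E) := by
    rw [Finset.disjoint_left]
    intro x hx hx'
    rw [Finset.mem_range] at hx
    rw [Finset.mem_Ico] at hx'
    omega
  rw [gE, hsplit, Finset.prod_union hdisj]
  have h1 : 0 ≤ ∏ e' ∈ range μ, ((2 : ℝ) ^ (2 * e' + ρ) - (2 : ℝ) ^ (2 * e + ρ)) /
      ((2 : ℝ) ^ (2 * e' + ρ) - (2 : ℝ) ^ (2 * μ + ρ)) := by
    refine Finset.prod_nonneg (fun e' he' => ?_)
    rw [Finset.mem_range] at he'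
    have p1 := pow_lt (ρ := ρ) (show e' < e by omega)
    have p2 := pow_lt (ρ := ρ) he'
    exact div_nonneg_of_nonpos (by linarith) (by linarith)
  have h2 : ∏ e' ∈ Ico (μ + 1) E, ((2 : ℝ) ^ (2 * e' + ρ) - (2 : ℝ) ^ (2 * e + ρ)) /
      ((2 : ℝ) ^ (2 * e' + ρ) - (2 : ℝ) ^ (2 * μ + ρ)) =
      - ∏ e' ∈ Ico (μ + 1) E, ((2 : ℝ) ^ (2 * e + ρ) - (2 : ℝ) ^ (2 * e' + ρ)) /
      ((2 : ℝ) ^ (2 * e' + ρ) - (2 : ℝ) ^ (2 * μ + ρ)) := by
    have h3 : ∀ e' ∈ Ico (μ + 1) E, ((2 : ℝ) ^ (2 * e' + ρ) - (2 : ℝ) ^ (2 * e + ρ)) /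
      ((2 : ℝ) ^ (2 * e' + ρ) - (2 : ℝ) ^ (2 * μ + ρ)) =
        (-1) * (((2 : ℝ) ^ (2 * e + ρ) - (2 : ℝ) ^ (2 * e' + ρ)) /
      ((2 : ℝ) ^ (2 * e' + ρ) - (2 : ℝ) ^ (2 * μ + ρ))) := fun e' _ => by ring
    rw [Finset.prod_congr rfl h3, Finset.prod_mul_distrib, Finset.prod_const, Nat.card_Ico,
      hpar.neg_one_pow]
    ring
  have h4 : 0 ≤ ∏ e' ∈ Ico (μ + 1) E, ((2 : ℝ) ^ (2 * e + ρ) - (2 : ℝ) ^ (2 * e' + ρ)) /
      ((2 : ℝ) ^ (2 * e' + ρ) - (2 : ℝ) ^ (2 * μ + ρ)) := by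
    refine Finset.prod_nonneg (fun e' he' => ?_)
    rw [Finset.mem_Ico] at he'
    have p1 := pow_lt (ρ := ρ) (show e' < e by omega)
    have p2 := pow_lt (ρ := ρ) (show μ < e' by omega)
    exact div_nonneg (by linarith) (by linarith)
  rw [h2]
  nlinarith [mul_nonneg h1 h4]

theorem t_LWC : S_LWC := by
  intro hA hB m ε hε
  classical
  set μ := m / 2 with hμ
  set ρ := m % 2 with hρ
  have hm : m = 2 * μ + ρ := by omega
  have hρ2 : ρ < 2 := Nat.mod_lt _ (by norm_num)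
  have hT := hB μ ρ hρ2
  have hev : ∀ᶠ E in atTop, aa (2 * μ + ρ) - ε / 2 <
      ∑' e : ℕ, aa (2 * e + ρ) * gE μ ρ E ((2 : ℝ) ^ (2 * e + ρ)) :=
    hT.eventually (lt_mem_nhds (by linarith))
  obtain ⟨E₀, hE₀⟩ := eventually_atTop.1 hev
  set E := μ + 2 * (E₀ + 1) with hE
  have hE1 := hE₀ E (by omega)
  have hμE : μ < E := by omega
  have hpar : Odd (E - (μ + 1)) := ⟨E₀, by omega⟩
  obtain ⟨c, hc⟩ := gE_LC (ρ := ρ) hμE
  have hsum : HasSum (fun e : ℕ => aa (2 * e + ρ) * gE μ ρ E ((2 : ℝ) ^ (2 * e + ρ)))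
      (∑ k ∈ range E, c k * ((2 : ℝ) ^ (k * (k + 1) / 2) / 2)) := by
    have h1 : HasSum (fun e : ℕ => ∑ k ∈ range E, c k * (aa (2 * e + ρ) *
        ∏ i ∈ range k, ((2 : ℝ) ^ (2 * e + ρ) - 2 ^ i)))
        (∑ k ∈ range E, c k * ((2 : ℝ) ^ (k * (k + 1) / 2) / 2)) :=
      hasSum_sum (fun k _ => (hA.2 k ρ hρ2).mul_left (c k))
    convert h1 using 2 with e
    rw [hc, Finset.mul_sum]
    refine Finset.sum_congr rfl (fun k _ => ?_)
    rw [ff]
    ring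
  rw [hsum.tsum_eq, ← hm] at hE1
  set C := ∑ k ∈ range E, |c k| with hC
  have hC0 : 0 ≤ C := Finset.sum_nonneg (fun k _ => abs_nonneg _)
  refine ⟨E, ε / 2 / (C + 1), by positivity, ?_⟩
  intro A _ d hd
  set η := ε / 2 / (C + 1) with hη
  have hη0 : 0 < η := by rw [hη]; positivity
  have hηC : η * C ≤ ε / 2 := by
    rw [hη, div_mul_eq_mul_div, div_le_iff₀ (by linarith)]
    nlinarith
  set n : ℝ := (Fintype.card A : ℝ) with hn
  have hn0 : 0 ≤ n := Nat.cast_nonneg _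
  -- the count
  have hcount : ({a : A | d a = m}.ncard : ℝ) = ∑ a : A, if d a = m then (1 : ℝ) else 0 := by
    have h1 : {a : A | d a = m} = ↑((Finset.univ : Finset A).filter (fun a => d a = m)) := by
      ext a; simp
    rw [h1, Set.ncard_coe_finset, Finset.sum_boole]
  have hle : ∑ a with d a % 2 = m % 2, gE μ ρ E ((2 : ℝ) ^ d a) ≤ ({a : A | d a = m}.ncard : ℝ) := by
    rw [hcount, Finset.sum_filter]
    refine Finset.sum_le_sum (fun a _ => ?_)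
    by_cases hpa : d a % 2 = m % 2
    · rw [if_pos hpa]
      obtain ⟨e, he⟩ : ∃ e, d a = 2 * e + ρ := ⟨d a / 2, by omega⟩
      rw [he]
      by_cases h1 : 2 * e + ρ = m
      · rw [if_pos h1]
        have h2 : e = μ := by omega
        rw [h2, gE_self]
      · rw [if_neg h1]
        have h2 : e ≠ μ := by omega
        rcases Nat.lt_or_ge e E with h3 | h3
        · rw [gE_zero h3 h2]
        · exact gE_nonpos hμE hpar h3
    · rw [if_neg hpa]
      split_ifs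
      · exact zero_le_one
      · exact le_rfl
  have heq : ∑ a with d a % 2 = m % 2, gE μ ρ E ((2 : ℝ) ^ d a) =
      ∑ k ∈ range E, c k * ∑ a with d a % 2 = m % 2, ∏ i ∈ range k, ((2 : ℝ) ^ d a - 2 ^ i) := by
    simp_rw [Finset.mul_sum]
    rw [Finset.sum_comm]
    refine Finset.sum_congr rfl (fun a _ => ?_)
    rw [hc]
    rfl
  have hge : ∑ k ∈ range E, (c k * ((2 : ℝ) ^ (k * (k + 1) / 2) / 2) * n - |c k| * (η * n)) ≤
      ∑ k ∈ range E, c k * ∑ a with d a % 2 = m % 2, ∏ i ∈ range k, ((2 : ℝ) ^ d a - 2 ^ i) := by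
    refine Finset.sum_le_sum (fun k hk => ?_)
    have h1 := hd k (Finset.mem_range.1 hk).le
    set X := ∑ a with d a % 2 = m % 2, ∏ i ∈ range k, ((2 : ℝ) ^ d a - 2 ^ i) with hX
    set T := (2 : ℝ) ^ (k * (k + 1) / 2) / 2 with hTd
    have h2 : |c k * (X - T * n)| ≤ |c k| * (η * n) := by
      rw [abs_mul]
      exact mul_le_mul_of_nonneg_left h1 (abs_nonneg _)
    have h3 := neg_abs_le (c k * (X - T * n))
    nlinarith
  have htot : ∑ k ∈ range E, (c k * ((2 : ℝ) ^ (k * (k + 1) / 2) / 2) * n - |c k| * (η * n)) =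
      (∑ k ∈ range E, c k * ((2 : ℝ) ^ (k * (k + 1) / 2) / 2)) * n - C * (η * n) := by
    rw [Finset.sum_sub_distrib, ← Finset.sum_mul, ← Finset.sum_mul]
  rw [htot] at hge
  rw [heq] at hle
  have hfin : (aa m - ε) * n ≤
      (∑ k ∈ range E, c k * ((2 : ℝ) ^ (k * (k + 1) / 2) / 2)) * n - C * (η * n) := by
    have h1 : (aa m - ε / 2) * n ≤
        (∑ k ∈ range E, c k * ((2 : ℝ) ^ (k * (k + 1) / 2) / 2)) * n :=
      mul_le_mul_of_nonneg_right hE1.le hn0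
    have h2 : C * (η * n) ≤ ε / 2 * n := by
      have : C * (η * n) = (η * C) * n := by ring
      rw [this]
      exact mul_le_mul_of_nonneg_right hηC hn0
    linarith
  exact hfin.trans (hge.trans hle)

end Pool.Agent.D0H80.OD
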